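import Pool.Agent.H80.G2.Targets

/-!
# MP_323167_an, property Gamma: row BLD

Symmetries which converge to an outer involution.
-/

set_option autoImplicit false

open scoped InnerProductSpace Topology
open Filter Finset Pool.Agent.H80.G2

namespace Pool.Agent.H74.G2

variable {H : Type} [NormedAddCommGroup H] [InnerProductSpace ℂ H] [CompleteSpace H]

/-- a state of the construction: a finite group, its current symmetry, the elements under
control, and the last test element -/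
structure St (H : Type) [NormedAddCommGroup H] [InnerProductSpace ℂ H] where
  G : Finset (H →L[ℂ] H)
  w : H →L[ℂ] H
  F : Finset (H →L[ℂ] H)
  y : H →L[ℂ] H

/-- the invariant of the construction -/
structure Good (N : VonNeumannAlgebra H) (S : St H) : Prop where
  uni : ∀ g ∈ S.G, Uni N g
  one : (1 : H →L[ℂ] H) ∈ S.G
  mul : ∀ g ∈ S.G, ∀ h ∈ S.G, g * h ∈ S.G
  star : ∀ g ∈ S.G, star g ∈ S.G
  mem : S.w ∈ S.G
  sym : Sym N S.w
  fin : ∀ x ∈ S.F, x ∈ N

theorem good_zero (N : VonNeumannAlgebra H) : Good N ⟨{1}, 1, ∅, 1⟩ := by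
  refine ⟨?_, ?_, ?_, ?_, ?_, ?_, ?_⟩
  · intro g hg
    rw [Finset.mem_singleton] at hg
    rw [hg]
    exact uni_one N
  · exact Finset.mem_singleton_self _
  · intro g hg h hh
    rw [Finset.mem_singleton] at hg hh ⊢
    rw [hg, hh, one_mul]
  · intro g hg
    rw [Finset.mem_singleton] at hg ⊢
    rw [hg, star_one]
  · exact Finset.mem_singleton_self _
  · exact ⟨one_mem N, star_one _, one_mul _⟩
  · intro x hx
    exact absurd hx (Finset.notMem_empty _)

/-- adding a commuting symmetry to a finite group -/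
theorem good_add (N : VonNeumannAlgebra H) (S : St H) (hS : Good N S) (s : H →L[ℂ] H)
    (hs : Sym N s) (hc : ∀ g ∈ S.G, g * s = s * g) (w' : H →L[ℂ] H)
    (hw' : w' = S.w ∨ w' = S.w * s) (F' : Finset (H →L[ℂ] H)) (hF : ∀ x ∈ F', x ∈ N)
    (y : H →L[ℂ] H) : ∃ G' : Finset (H →L[ℂ] H), Good N ⟨G', w', F', y⟩ := by
  classical
  refine ⟨S.G ∪ S.G.image (fun g => g * s), ?_, ?_, ?_, ?_, ?_, ?_, ?_⟩
  · intro g hg
    rcases Finset.mem_union.1 hg with h | h
    · exact hS.uni g h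
    · obtain ⟨a, ha, rfl⟩ := Finset.mem_image.1 h
      exact (hS.uni a ha).mul hs.uni
  · exact Finset.mem_union_left _ hS.one
  · intro g hg h hh
    rcases Finset.mem_union.1 hg with h1 | h1
    · rcases Finset.mem_union.1 hh with h2 | h2
      · exact Finset.mem_union_left _ (hS.mul _ h1 _ h2)
      · obtain ⟨b, hb, rfl⟩ := Finset.mem_image.1 h2
        refine Finset.mem_union_right _ (Finset.mem_image.2 ⟨g * b, hS.mul _ h1 _ hb, ?_⟩)
        exact mul_assoc _ _ _
    · obtain ⟨a, ha, rfl⟩ := Finset.mem_image.1 h1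
      rcases Finset.mem_union.1 hh with h2 | h2
      · refine Finset.mem_union_right _ (Finset.mem_image.2 ⟨a * h, hS.mul _ ha _ h2, ?_⟩)
        show a * h * s = a * s * h
        rw [mul_assoc, mul_assoc, hc h h2]
      · obtain ⟨b, hb, rfl⟩ := Finset.mem_image.1 h2
        have h3 : a * s * (b * s) = a * b := by
          rw [mul_assoc, ← mul_assoc s, ← hc b hb, mul_assoc b, hs.2.2, mul_one]
        refine Finset.mem_union_left _ ?_
        show a * s * (b * s) ∈ S.G
        rw [h3]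
        exact hS.mul _ ha _ hb
  · intro g hg
    rcases Finset.mem_union.1 hg with h | h
    · exact Finset.mem_union_left _ (hS.star g h)
    · obtain ⟨a, ha, rfl⟩ := Finset.mem_image.1 h
      refine Finset.mem_union_right _ (Finset.mem_image.2 ⟨_, hS.star a ha, ?_⟩)
      show star a * s = star (a * s)
      rw [star_mul, hs.2.1, hc _ (hS.star a ha)]
  · rcases hw' with h | h
    · show w' ∈ _
      rw [h]
      exact Finset.mem_union_left _ hS.mem
    · show w' ∈ _
      rw [h]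
      exact Finset.mem_union_right _ (Finset.mem_image.2 ⟨S.w, hS.mem, rfl⟩)
  · show Sym N w'
    rcases hw' with h | h
    · rw [h]
      exact hS.sym
    · rw [h]
      refine ⟨mul_mem hS.sym.1 hs.1, ?_, ?_⟩
      · rw [star_mul, hs.2.1, hS.sym.2.1, hc _ hS.mem]
      · rw [mul_assoc, ← mul_assoc s, ← hc _ hS.mem, mul_assoc S.w s s, hs.2.2, mul_one,
          hS.sym.2.2]
  · exact hF

/-- conjugation with a symmetry does not change the 2-norm -/
theorem n2_symconj {N : VonNeumannAlgebra H} {ξ : ℕ → H} (h : IsTr N ξ) {w x : H →L[ℂ] H}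
    (hw : Sym N w) (hx : x ∈ N) : n2 ξ (w * x * w) = n2 ξ x := by
  have := n2_conj h hw.uni hx
  rwa [hw.2.1] at this

theorem n2_symcomm {N : VonNeumannAlgebra H} {ξ : ℕ → H} (h : IsTr N ξ) {s x : H →L[ℂ] H}
    (hs : Sym N s) (hx : x ∈ N) : n2 ξ (s * x * s - x) = n2 ξ (s * x - x * s) := by
  have := n2_comm_uni h hs.uni hx
  rwa [hs.2.1] at this

/-- one step of the construction -/
theorem step (hSTP : T_STP) (hAVU : T_AVU) (N : VonNeumannAlgebra H) (ξ : ℕ → H)
    (h : IsTr N ξ) (hf : IsFac N) (ha : Als (1 / 20) N ξ) (S : St H) (hS : Good N S)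
    (x : H →L[ℂ] H) (hx : x ∈ N) (δ : ℝ) (hδ : 0 < δ) :
    ∃ S' : St H, Good N S' ∧ (∀ z, z = x ∨ z ∈ S.F → z ∈ S'.F) ∧ S'.y ∈ S'.F ∧ Uni N S'.y ∧
      (∀ z, z = x ∨ z ∈ S.F → n2 ξ (S'.w * z * S'.w - S.w * z * S.w) < δ) ∧
      1 / 100 ≤ n2 ξ (S'.w * S'.y * S'.w - x * S'.y * star x) := by
  classical
  have hF1 : ∀ z ∈ insert x S.F, z ∈ N := by
    intro z hz
    rcases Finset.mem_insert.1 hz with h1 | h1
    · rw [h1]
      exact hx
    · exact hS.fin z h1
  obtain ⟨s, hs, hc, hsF, hs1⟩ := hSTP H N ξ h ha S.G hS.uni hS.one hS.mul hS.star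
    (insert x S.F) hF1 δ hδ
  obtain ⟨y, hy, hy1⟩ : ∃ y, Uni N y ∧ 1 / 50 < n2 ξ (y * s - s * y) := by
    by_contra hcon
    push Not at hcon
    have := hAVU H N ξ h hf s hs.1 (1 / 50) hcon
    linarith
  have hwN := hS.sym.1
  have hws : (S.w * s) * y * (S.w * s) = S.w * (s * y * s) * S.w := by
    have h1 : S.w * s = s * S.w := hc _ hS.mem
    calc (S.w * s) * y * (S.w * s) = (S.w * s) * y * (s * S.w) := by rw [h1]
      _ = S.w * (s * y * s) * S.w := by simp only [mul_assoc]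
  have hsep : 1 / 50 < n2 ξ (S.w * y * S.w - (S.w * s) * y * (S.w * s)) := by
    rw [hws]
    have h2 : S.w * y * S.w - S.w * (s * y * s) * S.w = S.w * (y - s * y * s) * S.w := by
      rw [mul_sub, sub_mul]
    rw [h2, n2_symconj h hS.sym (sub_mem hy.1 (mul_mem (mul_mem hs.1 hy.1) hs.1)),
      n2_sub_comm, n2_symcomm h hs hy.1, n2_sub_comm]
    exact hy1
  have htri := n2_sub_le h.sum (S.w * y * S.w) (x * y * star x) ((S.w * s) * y * (S.w * s))
  have hF2 : ∀ z ∈ insert y (insert x S.F), z ∈ N := by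
    intro z hz
    rcases Finset.mem_insert.1 hz with h1 | h1
    · rw [h1]
      exact hy.1
    · exact hF1 z h1
  obtain ⟨w', hw', hw1⟩ : ∃ w', (w' = S.w ∨ w' = S.w * s) ∧
      1 / 100 ≤ n2 ξ (w' * y * w' - x * y * star x) := by
    rcases le_or_gt (1 / 100) (n2 ξ (S.w * y * S.w - x * y * star x)) with h1 | h1
    · exact ⟨S.w, Or.inl rfl, h1⟩
    · refine ⟨S.w * s, Or.inr rfl, ?_⟩
      rw [n2_sub_comm]
      linarith
  obtain ⟨G', hG'⟩ := good_add N S hS s hs hc w' hw' _ hF2 y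
  refine ⟨⟨G', w', insert y (insert x S.F), y⟩, hG', ?_, ?_, hy, ?_, hw1⟩
  · intro z hz
    refine Finset.mem_insert_of_mem (Finset.mem_insert.2 hz)
  · exact Finset.mem_insert_self _ _
  · intro z hz
    have hz1 : z ∈ insert x S.F := Finset.mem_insert.2 hz
    show n2 ξ (w' * z * w' - S.w * z * S.w) < δ
    rcases hw' with h1 | h1
    · rw [h1, sub_self, n2_zero]
      exact hδ
    · have h2 : S.w * s = s * S.w := hc _ hS.mem
      have h3 : w' * z * w' - S.w * z * S.w = S.w * (s * z * s - z) * S.w := by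
        rw [h1]
        calc (S.w * s) * z * (S.w * s) - S.w * z * S.w
            = (S.w * s) * z * (s * S.w) - S.w * z * S.w := by rw [h2]
          _ = S.w * (s * z * s - z) * S.w := by
            rw [mul_sub, sub_mul]
            simp only [mul_assoc]
      rw [h3, n2_symconj h hS.sym (sub_mem (mul_mem (mul_mem hs.1 (hF1 z hz1)) hs.1)
        (hF1 z hz1)), n2_symcomm h hs (hF1 z hz1)]
      exact hsF z hz1

theorem pf_BLD (hSTP : T_STP) (hAVU : T_AVU) (hDNS : T_DNS) : T_BLD := by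
  classical
  intro H _ _ _ _ N ξ h hf ha
  obtain ⟨x, hx, hd⟩ := hDNS H N ξ h
  have hδ : ∀ n : ℕ, (0 : ℝ) < (1 / 2) ^ n / 1000 := fun n => by positivity
  choose nx hnx using fun (n : ℕ) (S : {S : St H // Good N S}) =>
    step hSTP hAVU N ξ h hf ha S.1 S.2 (x n) (hx n).1 _ (hδ n)
  let T : ℕ → {S : St H // Good N S} := fun n =>
    Nat.rec ⟨⟨{1}, 1, ∅, 1⟩, good_zero N⟩ (fun n S => ⟨nx n S, (hnx n S).1⟩) n
  have hT : ∀ n, (T (n + 1)).1 = nx n (T n) := fun n => rfl
  have hsub : ∀ n z, z = x n ∨ z ∈ (T n).1.F → z ∈ (T (n + 1)).1.F := by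
    intro n z hz
    rw [hT]
    exact (hnx n (T n)).2.1 z hz
  have hsy : ∀ n, (T (n + 1)).1.y ∈ (T (n + 1)).1.F ∧ Uni N (T (n + 1)).1.y := by
    intro n
    rw [hT]
    exact ⟨(hnx n (T n)).2.2.1, (hnx n (T n)).2.2.2.1⟩
  have hst : ∀ n z, z = x n ∨ z ∈ (T n).1.F →
      n2 ξ ((T (n + 1)).1.w * z * (T (n + 1)).1.w - (T n).1.w * z * (T n).1.w) <
        (1 / 2) ^ n / 1000 := by
    intro n z hz
    rw [hT]
    exact (hnx n (T n)).2.2.2.2.1 z hz
  have hfar : ∀ n, 1 / 100 ≤ n2 ξ ((T (n + 1)).1.w * (T (n + 1)).1.y * (T (n + 1)).1.w -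
      x n * (T (n + 1)).1.y * star (x n)) := by
    intro n
    rw [hT]
    exact (hnx n (T n)).2.2.2.2.2
  have hmono : ∀ n i z, z ∈ (T n).1.F → z ∈ (T (n + i)).1.F := by
    intro n i z hz
    induction i with
    | zero => exact hz
    | succ i ih => exact hsub (n + i) z (Or.inr ih)
  have hcau : ∀ n i z, z ∈ (T n).1.F →
      n2 ξ ((T (n + i)).1.w * z * (T (n + i)).1.w - (T n).1.w * z * (T n).1.w) ≤
        (2 * (1 / 2) ^ n - 2 * (1 / 2) ^ (n + i)) / 1000 := by
    intro n i z hz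
    induction i with
    | zero =>
      rw [Nat.add_zero, sub_self, n2_zero, sub_self, zero_div]
    | succ i ih =>
      have h1 := hst (n + i) z (Or.inr (hmono n i z hz))
      have h2 := n2_sub_le h.sum ((T (n + i + 1)).1.w * z * (T (n + i + 1)).1.w)
        ((T (n + i)).1.w * z * (T (n + i)).1.w) ((T n).1.w * z * (T n).1.w)
      have h3 : (1 / 2 : ℝ) ^ (n + (i + 1)) = (1 / 2) ^ (n + i) * (1 / 2) := by
        rw [← add_assoc, pow_succ]
      rw [h3]
      have h4 : n + (i + 1) = n + i + 1 := rfl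
      rw [h4]
      linarith
  have hcau2 : ∀ n z, z ∈ (T n).1.F → ∀ K, n ≤ K → ∀ j, K ≤ j →
      n2 ξ ((T j).1.w * z * (T j).1.w - (T K).1.w * z * (T K).1.w) ≤
        2 * (1 / 2) ^ K / 1000 := by
    intro n z hz K hK j hj
    obtain ⟨a, rfl⟩ := Nat.exists_eq_add_of_le hK
    obtain ⟨b, rfl⟩ := Nat.exists_eq_add_of_le hj
    have h1 := hcau (n + a) b z (hmono n a z hz)
    have h2 : (0 : ℝ) < (1 / 2) ^ (n + a + b) := by positivity
    linarith
  refine ⟨fun n => (T n).1.w, fun n => (T n).2.sym, ?_, ?_⟩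
  · intro z hz ε hε
    have hc0 : 0 < ‖z‖ + 1 := by positivity
    obtain ⟨n, hn⟩ := hd (((1 / (‖z‖ + 1) : ℝ) : ℂ) • z) (smul_mem' N _ hz) (by
      rw [norm_smul, Complex.norm_real, Real.norm_eq_abs, abs_of_pos (by positivity),
        div_mul_eq_mul_div, one_mul, div_le_one hc0]
      linarith) (ε / (4 * (‖z‖ + 1))) (by positivity)
    have hn1 : n2 ξ (z - ((‖z‖ + 1 : ℝ) : ℂ) • x n) < ε / 4 := by
      have h1 : z - ((‖z‖ + 1 : ℝ) : ℂ) • x n =
          ((‖z‖ + 1 : ℝ) : ℂ) • (((1 / (‖z‖ + 1) : ℝ) : ℂ) • z - x n) := by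
        rw [smul_sub, smul_smul, ← Complex.ofReal_mul, mul_one_div_cancel hc0.ne',
          Complex.ofReal_one, one_smul]
      rw [h1, n2_smul h.sum, Complex.norm_real, Real.norm_eq_abs, abs_of_pos hc0]
      calc (‖z‖ + 1) * n2 ξ (((1 / (‖z‖ + 1) : ℝ) : ℂ) • z - x n)
          < (‖z‖ + 1) * (ε / (4 * (‖z‖ + 1))) := by
            exact mul_lt_mul_of_pos_left hn hc0
        _ = ε / 4 := by
          field_simp
    have hxF : x n ∈ (T (n + 1)).1.F := hsub n _ (Or.inl rfl)
    obtain ⟨K1, hK1⟩ := exists_pow_lt_of_lt_one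
      (show 0 < ε / (‖z‖ + 1) by positivity) (show (1 / 2 : ℝ) < 1 by norm_num)
    refine ⟨max (n + 1) K1, fun j hj k hk => ?_⟩
    set K := max (n + 1) K1 with hKdef
    have hK2 : (1 / 2 : ℝ) ^ K < ε / (‖z‖ + 1) :=
      (pow_le_pow_of_le_one (by norm_num) (by norm_num) (le_max_right _ _)).trans_lt hK1
    have hK3 : (‖z‖ + 1) * (1 / 2 : ℝ) ^ K < ε := by
      rw [lt_div_iff₀ hc0] at hK2
      linarith
    have h1 := hcau2 (n + 1) (x n) hxF K (le_max_left _ _) j hj
    have h2 := hcau2 (n + 1) (x n) hxF K (le_max_left _ _) k hk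
    have h3 := n2_sub_le h.sum ((T j).1.w * x n * (T j).1.w) ((T K).1.w * x n * (T K).1.w)
      ((T k).1.w * x n * (T k).1.w)
    rw [n2_sub_comm ξ ((T K).1.w * x n * (T K).1.w)] at h3
    have h4 : n2 ξ ((T j).1.w * x n * (T j).1.w - (T k).1.w * x n * (T k).1.w) ≤
        4 * (1 / 2) ^ K / 1000 := by linarith
    set c : ℂ := ((‖z‖ + 1 : ℝ) : ℂ) with hc
    have hmemz : z - c • x n ∈ N := sub_mem hz (smul_mem' N _ (hx n).1)
    have h5 : (T j).1.w * z * (T j).1.w - (T k).1.w * z * (T k).1.w =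
        (T j).1.w * (z - c • x n) * (T j).1.w +
          c • ((T j).1.w * x n * (T j).1.w - (T k).1.w * x n * (T k).1.w) -
          (T k).1.w * (z - c • x n) * (T k).1.w := by
      simp only [mul_sub, sub_mul, smul_sub, mul_smul_comm, smul_mul_assoc]
      abel
    show n2 ξ ((T j).1.w * z * (T j).1.w - (T k).1.w * z * (T k).1.w) < ε
    rw [h5]
    have h6 := n2_sub h.sum ((T j).1.w * (z - c • x n) * (T j).1.w +
          c • ((T j).1.w * x n * (T j).1.w - (T k).1.w * x n * (T k).1.w))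
          ((T k).1.w * (z - c • x n) * (T k).1.w)
    have h7 := n2_add h.sum ((T j).1.w * (z - c • x n) * (T j).1.w)
          (c • ((T j).1.w * x n * (T j).1.w - (T k).1.w * x n * (T k).1.w))
    rw [n2_symconj h (T j).2.sym hmemz] at h7
    rw [n2_symconj h (T k).2.sym hmemz] at h6
    rw [n2_smul h.sum] at h7
    have h8 : ‖c‖ = ‖z‖ + 1 := by
      rw [hc, Complex.norm_real, Real.norm_eq_abs, abs_of_pos hc0]
    rw [h8] at h7
    have h9 := mul_le_mul_of_nonneg_left h4 hc0.le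
    nlinarith
  · intro v hv
    obtain ⟨n, hn⟩ := hd v hv.1 (norm_of_uni hv) (1 / 1000) (by norm_num)
    obtain ⟨hyF, hyU⟩ := hsy n
    refine ⟨(T (n + 1)).1.y, hyU.1, fun hlim => ?_⟩
    set y := (T (n + 1)).1.y with hy
    have hlim' : ∀ᶠ k in atTop, n2 ξ ((T k).1.w * y * (T k).1.w - v * y * star v) <
        1 / 1000 := hlim.eventually_lt_const (by norm_num)
    obtain ⟨k, hk1, hk2⟩ := (hlim'.and (eventually_ge_atTop (n + 1))).exists
    have h1 := hcau2 (n + 1) y hyF (n + 1) le_rfl k hk2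
    have h2 := hfar n
    have hxm := (hx n).1
    have h3 : n2 ξ (v * y * star v - x n * y * star (x n)) ≤ 2 / 1000 := by
      have e1 : v * y * star v - x n * y * star (x n) =
          (v - x n) * (y * star v) + x n * y * star (v - x n) := by
        rw [star_sub, sub_mul, mul_sub]
        simp only [mul_assoc]
        abel
      rw [e1]
      have e2 := n2_add h.sum ((v - x n) * (y * star v)) (x n * y * star (v - x n))
      have e3 : n2 ξ ((v - x n) * (y * star v)) = n2 ξ (v - x n) :=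
        n2_mul_uni h (hyU.mul hv.star) (sub_mem hv.1 hxm)
      have e4 : n2 ξ (x n * y * star (v - x n)) ≤ 1 * n2 ξ (v - x n) := by
        refine (n2_mul_le h.sum _ _).trans ?_
        rw [n2_star h (sub_mem hv.1 hxm)]
        refine mul_le_mul_of_nonneg_right ?_ (n2_nonneg _ _)
        refine (norm_mul_le _ _).trans ?_
        exact mul_le_one₀ (hx n).2 (norm_nonneg _) (norm_of_uni hyU)
      rw [e3] at e2
      linarith
    have h4 := n2_sub_le h.sum ((T (n + 1)).1.w * y * (T (n + 1)).1.w)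
      ((T k).1.w * y * (T k).1.w) (x n * y * star (x n))
    have h5 := n2_sub_le h.sum ((T k).1.w * y * (T k).1.w) (v * y * star v)
      (x n * y * star (x n))
    rw [n2_sub_comm ξ ((T (n + 1)).1.w * y * (T (n + 1)).1.w)
      ((T k).1.w * y * (T k).1.w)] at h4
    have h6 : (1 / 2 : ℝ) ^ (n + 1) ≤ 1 := pow_le_one₀ (by norm_num) (by norm_num)
    linarith

end Pool.Agent.H74.G2
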